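import Mathlib
import Pool.Agent.Helper278.DefsG
import Pool.Agent.Helper278.CEStmt
import Pool.Agent.Helper436.SM.Stmt
import Pool.Agent.Helper436.SM.Main
import Pool.Agent.Helper159.GM.Stmt
import Pool.Agent.Helper159.GM.Trans
import Pool.Agent.Helper159.GM.NoMc
import Pool.Agent.Helper159.GM.Asm

set_option autoImplicit false

open scoped InnerProductSpace

namespace Pool.Agent.Results.MP_c72427_an.TwoTheories

open Pool.Agent.Helper278 Pool.Agent.Helper278.CE Pool.Agent.Helper436.SM Pool.Agent.Helper159.GM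

universe w

/-- There are a hyperfinite II₁ factor `R` and two II₁ factors `N` and `M` with property Gamma, none
of them McDuff, that are not elementarily equivalent. -/
theorem result :
    ∃ R N M : VNA, IsHyperfiniteII R.N R.τ ∧ IsIIOneFactor N.N N.τ ∧ IsIIOneFactor M.N M.τ ∧
      HasGamma N.τ ∧ HasGamma M.τ ∧ ¬ IsMcDuff R.N R.τ N.N N.τ ∧ ¬ IsMcDuff R.N R.τ M.N M.τ ∧
      ¬ ElemEquiv.{w} N.τ M.τ := by
  obtain ⟨L, _, _, _, R, T, W, hW, hP⟩ := ExR.exists_R
  have hpb := pb_unit (trAlg T) hW hP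
  have hII := isIIOne_of hpb gapAll_unit
  have hhyp := Hyp.hyperfinite_of_pauli (trAlg T) hW hP
  have hN := isIIOne_of_gap gapData1
  have hM := isIIOne_of_gap gapData2
  refine ⟨⟨L, R, fun x => T.τ x⟩, ⟨EllTwo G1, LG G1, fun x => (TL G1).τ x⟩,
    ⟨EllTwo G2, LG G2, fun x => (TL G2).τ x⟩, ⟨hII, hhyp⟩, hN, hM, ?_, ?_, ?_, ?_, ?_⟩
  · intro F ε hε
    exact gamma (gvn (G := G1)) a1 a1_ne a1_comm F ε hε
  · intro F ε hε
    exact gamma (gvn (G := G2)) a2 a2_ne a2_comm F ε hε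
  · exact not_mcDuff (LG G1) (TL G1) (sb G1 1) TL_apply _ _ 80
      (fun x hx y hy => comm_le (gvn (G := G1)) gapData1 x y hx hy) R T W hW hP
  · exact not_mcDuff (LG G2) (TL G2) (sb G2 1) TL_apply _ _ 80
      (fun x hx y hy => comm_le (gvn (G := G2)) gapData2 x y hx hy) R T W hW hP
  · rintro ⟨I, J, U, V, P, Q, _, _, _, _, _, _, π, φ, ρ, ψ, h1, h2, ⟨e⟩⟩
    have he := iso_trace hN.center hN.infinite h1 h2 e
    exact transfer h1 h2 e he (by norm_num) (by norm_num)
      (pos_of (gvn (G := G2)) gapData2 mover2) (neg_of (gvn (G := G1)) chain1)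

end Pool.Agent.Results.MP_c72427_an.TwoTheories
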